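import Pool.Agent.J4H26.KP.Q2
import Pool.Agent.J4H26.PC.B1
import Pool.Agent.J4H79.PC2.A0

/-!
# Project KP (L4): forms far from each other and independent walks
-/

set_option autoImplicit false

namespace Pool.Agent.J4H84.KP

open Finset Filter Real
open Pool.Agent.J4H39 (T od ex pb rn stP stK Rel par par_eq GK GS Cm th0 exK th0_pos th0_lt th0_gt three_pow ex_mono ex_congr ex_add
  ex_mul ex_const ex_sum pb_nonneg pb_mono pb_or pb_od pow3_odd pb_affine rel_rn rel_nat rn_stK_apply Per per_od od_le)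
open Pool.Agent.J4H26.PC (Iv avg_bd ex_abs ex_sub ex_cmp S_LABR)
open Pool.Agent.J4H26.KP

theorem prod_bd {K : ℕ} {F : Fin K → ℤ → ℝ} (hF : ∀ i, Iv (F i)) (z : Fin K → ℤ) : |∏ i, F i (z i)| ≤ 1 := by
  rw [Finset.abs_prod]
  exact Finset.prod_le_one (fun i _ => abs_nonneg _) (fun i _ => (hF i).bd _)

theorem ccK_bd {K : ℕ} {F : Fin K → ℤ → ℝ} (hF : ∀ i, Iv (F i)) (κ X : ℝ) (D : Fin K → ℕ) (r : Fin K → ℤ) :
    |ccK F κ X D r| ≤ 2 := by
  unfold ccK
  exact avg_bd (f := fun n => ∏ i, F i (3 ^ D i * n + r i)) (fun n => prod_bd hF _) _ _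

theorem pb_exists {K : ℕ} (j : ℕ) (P : Fin K → ℤ → Prop) : pb j (fun x => ∃ i, P i x) ≤ ∑ i, pb j (P i) := by
  classical
  unfold pb
  rw [← ex_sum]
  apply ex_mono
  intro x
  by_cases h : ∃ i, P i x
  · obtain ⟨i, hi⟩ := h
    rw [if_pos ⟨i, hi⟩]
    have h1 : (if P i x then (1 : ℝ) else 0) ≤ ∑ i, if P i x then (1 : ℝ) else 0 :=
      Finset.single_le_sum (f := fun i => if P i x then (1 : ℝ) else 0) (fun _ _ => by split_ifs <;> norm_num)
        (Finset.mem_univ i)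
    rw [if_pos hi] at h1
    exact h1
  · rw [if_neg h]
    exact Finset.sum_nonneg (fun _ _ => by split_ifs <;> norm_num)

/-- an unusual number of odd steps -/
def BB (t : ℕ) (y : ℤ) : Prop := (t : ℝ) ^ (11 / 20 : ℝ) ≤ |2 * (od t y : ℝ) - t|

theorem per_BB (t : ℕ) : Per t (BB t) :=
  (per_od (le_refl t)).comp (fun o : ℕ => (t : ℝ) ^ (11 / 20 : ℝ) ≤ |2 * (o : ℝ) - t|)

theorem pb_BB {t : ℕ} (ht : 1 ≤ t) : pb t (BB t) ≤ 2 * Real.exp (-((t : ℝ) ^ (1 / 10 : ℝ) / 2)) := by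
  refine (pb_od ht (δ := (t : ℝ) ^ (11 / 20 : ℝ)) (by positivity)).trans (le_of_eq ?_)
  have ht0 : (0 : ℝ) < t := by exact_mod_cast ht
  congr 2
  have e : ((t : ℝ) ^ (11 / 20 : ℝ)) ^ 2 = (t : ℝ) ^ (1 / 10 : ℝ) * t := by
    rw [← Real.rpow_natCast, ← Real.rpow_mul ht0.le, ← Real.rpow_add_one ht0.ne']
    norm_num
  rw [e]
  field_simp

/-- the parameter `z` with `z ^ 20 ≤ t ≤ 2 z ^ 20` -/
noncomputable def zt (t : ℕ) : ℕ := ⌊(t : ℝ) ^ (1 / 20 : ℝ)⌋₊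

theorem zt_tendsto : Tendsto zt atTop atTop := by
  unfold zt
  exact tendsto_nat_floor_atTop.comp ((tendsto_rpow_atTop (by norm_num)).comp tendsto_natCast_atTop_atTop)

theorem zt_le (t : ℕ) : (zt t : ℝ) ≤ (t : ℝ) ^ (1 / 20 : ℝ) := Nat.floor_le (by positivity)

theorem zt_pow (t n : ℕ) : (zt t : ℝ) ^ n ≤ (t : ℝ) ^ ((n : ℝ) / 20) := by
  have h0 : (0 : ℝ) ≤ (t : ℝ) ^ (1 / 20 : ℝ) := by positivity
  calc (zt t : ℝ) ^ n ≤ ((t : ℝ) ^ (1 / 20 : ℝ)) ^ n := pow_le_pow_left₀ (Nat.cast_nonneg _) (zt_le t) n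
    _ = (t : ℝ) ^ ((n : ℝ) / 20) := by
        rw [← Real.rpow_natCast, ← Real.rpow_mul (Nat.cast_nonneg _)]
        congr 1
        ring

theorem zt_lower (t : ℕ) : zt t ^ 20 ≤ t := by
  have h := zt_pow t 20
  norm_num at h
  exact_mod_cast h

theorem zt_upper {t : ℕ} (h : 30 ≤ zt t) : t ≤ 2 * zt t ^ 20 := by
  have h1 : (t : ℝ) ^ (1 / 20 : ℝ) < zt t + 1 := Nat.lt_floor_add_one _
  have hz : (30 : ℝ) ≤ zt t := by exact_mod_cast h
  have h2 : (t : ℝ) ≤ (zt t + 1 : ℝ) ^ 20 := by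
    calc (t : ℝ) = ((t : ℝ) ^ (1 / 20 : ℝ)) ^ 20 := by
          rw [← Real.rpow_natCast, ← Real.rpow_mul (Nat.cast_nonneg _)]
          norm_num
      _ ≤ _ := pow_le_pow_left₀ (by positivity) h1.le 20
  have h3 : (zt t + 1 : ℝ) ^ 20 ≤ 2 * (zt t : ℝ) ^ 20 := by
    calc (zt t + 1 : ℝ) ^ 20 ≤ (31 / 30 * (zt t : ℝ)) ^ 20 := pow_le_pow_left₀ (by positivity) (by linarith) 20
      _ = (31 / 30) ^ 20 * (zt t : ℝ) ^ 20 := by rw [mul_pow]
      _ ≤ 2 * (zt t : ℝ) ^ 20 := by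
          apply mul_le_mul_of_nonneg_right _ (by positivity)
          norm_num
  have h4 : (t : ℝ) ≤ 2 * (zt t : ℝ) ^ 20 := h2.trans h3
  exact_mod_cast h4

/-- powers of `t` with a smaller exponent -/
theorem rpow_small (a b C : ℝ) (hab : a < b) : ∀ᶠ t : ℕ in atTop, C * (t : ℝ) ^ a ≤ (t : ℝ) ^ b := by
  have h1 : Tendsto (fun t : ℕ => (t : ℝ) ^ (b - a)) atTop atTop :=
    (tendsto_rpow_atTop (by linarith)).comp tendsto_natCast_atTop_atTop
  filter_upwards [h1.eventually_ge_atTop C, eventually_ge_atTop 1] with t ht ht1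
  have ht0 : (0 : ℝ) < t := by exact_mod_cast ht1
  have e : (t : ℝ) ^ b = (t : ℝ) ^ (b - a) * (t : ℝ) ^ a := by rw [← Real.rpow_add ht0]; congr 1; ring
  rw [e]
  exact mul_le_mul_of_nonneg_right ht (by positivity)

/-- the height after `t` steps -/
theorem height {ρ : ℝ} (hρ : 1 < ρ) : ∀ᶠ t : ℕ in atTop, ∀ X : ℝ, 0 < X → ρ * th0 * t ≤ logb 2 X → ∀ n : ℕ,
    (t : ℝ) - (t : ℝ) ^ (11 / 20 : ℝ) ≤ 2 * n → (2 : ℝ) ^ ⌊(ρ - 1) * th0 / 2 * t⌋₊ ≤ 3 ^ n * X / 2 ^ t := by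
  have hc : 0 < (ρ - 1) * th0 / 2 := by have := th0_pos; nlinarith
  filter_upwards [rpow_small (11 / 20) 1 (1 / ((ρ - 1) * th0 / 2)) (by norm_num), eventually_ge_atTop 1] with t ht ht1 X hX hl n hn
  have ht0 : (0 : ℝ) < t := by exact_mod_cast ht1
  rw [Real.rpow_one] at ht
  have h1 : (t : ℝ) ^ (11 / 20 : ℝ) ≤ (ρ - 1) * th0 / 2 * t := by
    rw [div_mul_eq_mul_div, one_mul, div_le_iff₀ hc] at ht
    linarith
  have hX2 : X = (2 : ℝ) ^ (logb 2 X) := (Real.rpow_logb (by norm_num) (by norm_num) hX).symm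
  have h2 : (3 : ℝ) ^ n * X / 2 ^ t = (2 : ℝ) ^ (2 * (1 - th0) * n + logb 2 X - t) := by
    rw [Real.rpow_sub (by norm_num), Real.rpow_add (by norm_num), ← three_pow, ← hX2, Real.rpow_natCast]
  rw [h2, ← Real.rpow_natCast]
  apply Real.rpow_le_rpow_of_exponent_le (by norm_num)
  have h3 : ((⌊(ρ - 1) * th0 / 2 * t⌋₊ : ℕ) : ℝ) ≤ (ρ - 1) * th0 / 2 * t := Nat.floor_le (by positivity)
  refine h3.trans ?_
  have h4 := th0_lt
  have h5 := th0_pos
  have h6 : (1 - th0) * ((t : ℝ) - (t : ℝ) ^ (11 / 20 : ℝ)) ≤ (1 - th0) * (2 * n) :=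
    mul_le_mul_of_nonneg_left hn (by linarith)
  have h7 : (0 : ℝ) ≤ (t : ℝ) ^ (11 / 20 : ℝ) := by positivity
  have h8 : (1 - th0) * (t : ℝ) ^ (11 / 20 : ℝ) ≤ (ρ - 1) * th0 / 2 * t := by nlinarith
  nlinarith

theorem toNat_lip (a b : ℤ) : |((a.toNat : ℕ) : ℝ) - b.toNat| ≤ |(a : ℝ) - b| := by
  have h : |((a.toNat : ℕ) : ℤ) - b.toNat| ≤ |a - b| := by
    rcases abs_cases (a - b) with ⟨h, _⟩ | ⟨h, _⟩ <;> rcases abs_cases (((a.toNat : ℕ) : ℤ) - b.toNat) with ⟨h', _⟩ | ⟨h', _⟩ <;>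
      omega
  exact_mod_cast h

/-- a bad word: an unusual number of odd steps of one of the members, or a large label -/
def Bad {K : ℕ} (t : ℕ) (D : Fin K → ℕ) (y : ℤ) : Prop :=
  BB t y ∨ (∃ i, BB t (3 ^ D i * y + 0)) ∨ ¬ ((t - zt t ^ 11) / 2 ≤ od t y ∧
    GK ((2 * 1 + 4) * zt t ^ 12) ((2 * 1 + 4) * zt t ^ 14) (rn stK t (fun i => ((D i : ℤ), 0)) y))

theorem pb_Bad (K : ℕ) (ε : ℝ) (hε : 0 < ε) : ∀ᶠ t : ℕ in atTop, ∀ D : Fin K → ℕ, (∀ i, (D i : ℝ) ≤ (t : ℝ) ^ (29 / 50 : ℝ)) →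
    pb t (Bad t D) ≤ ε := by
  have h1 : Tendsto (fun t : ℕ => ((K : ℝ) + 1) * (2 * Real.exp (-((t : ℝ) ^ (1 / 10 : ℝ) / 2)))) atTop (nhds 0) := by
    have h2 : Tendsto (fun t : ℕ => (t : ℝ) ^ (1 / 10 : ℝ) / 2) atTop atTop :=
      ((tendsto_rpow_atTop (by norm_num)).comp tendsto_natCast_atTop_atTop).atTop_div_const (by norm_num)
    have h3 := (Real.tendsto_exp_neg_atTop_nhds_zero.comp h2).const_mul (2 : ℝ)
    have h4 := h3.const_mul ((K : ℝ) + 1)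
    simpa using h4
  have h5 : Tendsto (fun t : ℕ => 1 / ((zt t : ℝ) ^ 1)) atTop (nhds 0) := by
    simp only [pow_one]
    exact tendsto_one_div_atTop_nhds_zero_nat.comp zt_tendsto
  filter_upwards [h1.eventually (ge_mem_nhds (show (0 : ℝ) < ε / 2 by positivity)),
    h5.eventually (ge_mem_nhds (show (0 : ℝ) < ε / 2 by positivity)),
    zt_tendsto.eventually (Pool.Agent.J4H79.PC2.t_LABR K 1 1), zt_tendsto.eventually_ge_atTop 30, eventually_ge_atTop 1,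
    rpow_small (29 / 50) (3 / 5) 4 (by norm_num)] with t g1 g2 g3 g4 g5 g6 D hD
  have hz : (30 : ℝ) ≤ zt t := by exact_mod_cast g4
  have ht0 : (0 : ℝ) < t := by exact_mod_cast g5
  -- the labels at the beginning
  have hz12 : (t : ℝ) ^ (29 / 50 : ℝ) ≤ (zt t : ℝ) ^ 12 := by
    have e1 : (t : ℝ) ^ (3 / 5 : ℝ) ≤ (2 * (zt t : ℝ) ^ 20) ^ (3 / 5 : ℝ) :=
      Real.rpow_le_rpow ht0.le (by exact_mod_cast zt_upper g4) (by norm_num)
    have e2 : (2 * (zt t : ℝ) ^ 20) ^ (3 / 5 : ℝ) ≤ 4 * (zt t : ℝ) ^ 12 := by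
      rw [Real.mul_rpow (by norm_num) (by positivity)]
      have e3 : ((zt t : ℝ) ^ 20) ^ (3 / 5 : ℝ) = (zt t : ℝ) ^ 12 := by
        rw [← Real.rpow_natCast, ← Real.rpow_mul (by positivity), ← Real.rpow_natCast]
        norm_num
      rw [e3]
      apply mul_le_mul_of_nonneg_right _ (by positivity)
      calc (2 : ℝ) ^ (3 / 5 : ℝ) ≤ 2 ^ (1 : ℝ) := Real.rpow_le_rpow_of_exponent_le (by norm_num) (by norm_num)
        _ ≤ 4 := by norm_num
    linarith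
  have hGK : GK (1 * zt t ^ 12) (1 * zt t ^ 14) (fun i => ((D i : ℤ), (0 : ℤ))) := by
    intro i
    unfold Pool.Agent.J4H39.GS
    constructor
    · have e1 : (D i : ℝ) ≤ (zt t : ℝ) ^ 12 := (hD i).trans hz12
      have e2 : D i ≤ zt t ^ 12 := by exact_mod_cast e1
      simp only [Nat.abs_cast]
      rw [one_mul]
      exact_mod_cast e2
    · simp
  have hlab := g3 t (zt_lower t) (zt_upper g4) _ hGK
  have hB := pb_BB g5
  have hB0 : (0 : ℝ) ≤ 2 * Real.exp (-((t : ℝ) ^ (1 / 10 : ℝ) / 2)) := by positivity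
  have hex : pb t (fun y => ∃ i, BB t (3 ^ D i * y + 0)) ≤ K * (2 * Real.exp (-((t : ℝ) ^ (1 / 10 : ℝ) / 2))) := by
    refine (pb_exists t (fun i y => BB t (3 ^ D i * y + 0))).trans ?_
    calc ∑ i : Fin K, pb t (fun y => BB t (3 ^ D i * y + 0)) ≤ ∑ i : Fin K, 2 * Real.exp (-((t : ℝ) ^ (1 / 10 : ℝ) / 2)) := by
          refine sum_le_sum fun i _ => ?_
          rw [pb_affine (per_BB t) (pow3_odd (D i)) 0]
          exact hB
      _ = _ := by rw [sum_const, card_univ, Fintype.card_fin, nsmul_eq_mul]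
  unfold Bad
  refine (pb_or t _ _).trans ((add_le_add hB ((pb_or t _ _).trans (add_le_add hex hlab))).trans ?_)
  have e9 : 2 * Real.exp (-((t : ℝ) ^ (1 / 10 : ℝ) / 2)) + (K * (2 * Real.exp (-((t : ℝ) ^ (1 / 10 : ℝ) / 2))) + 1 / (zt t : ℝ) ^ 1) =
      ((K : ℝ) + 1) * (2 * Real.exp (-((t : ℝ) ^ (1 / 10 : ℝ) / 2))) + 1 / (zt t : ℝ) ^ 1 := by ring
  rw [e9]
  linarith

/-- the facts for a usual number of odd steps -/
theorem not_BB {t : ℕ} {y : ℤ} (h : ¬ BB t y) : (t : ℝ) - (t : ℝ) ^ (11 / 20 : ℝ) ≤ 2 * (od t y : ℝ) ∧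
    2 * (od t y : ℝ) ≤ t + (t : ℝ) ^ (11 / 20 : ℝ) := by
  unfold BB at h
  rw [not_le, abs_lt] at h
  constructor <;> linarith

/-- the conditions on `t` -/
structure Con (c : ℝ) (t : ℕ) : Prop where
  one : 1 ≤ t
  h1 : 1 ≤ (t : ℝ) ^ (11 / 20 : ℝ)
  h2 : 4 * (t : ℝ) ^ (11 / 20 : ℝ) ≤ (t : ℝ) ^ (14 / 25 : ℝ)
  h3 : (t : ℝ) ^ (29 / 50 : ℝ) + 2 * (t : ℝ) ^ (11 / 20 : ℝ) ≤ (⌊c * t⌋₊ : ℝ) ^ (3 / 5 : ℝ)
  h4 : 6 * zt t ^ 14 ≤ ⌊(⌊c * t⌋₊ : ℝ) ^ (3 / 4 : ℝ)⌋₊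
  h5 : c / 2 * t ≤ ⌊c * t⌋₊
  h6 : 1 ≤ ⌊c * t⌋₊

theorem con {c : ℝ} (hc : 0 < c) : ∀ᶠ t : ℕ in atTop, Con c t := by
  have hfl : ∀ᶠ t : ℕ in atTop, c / 2 * t ≤ ⌊c * t⌋₊ := by
    have h1 : Tendsto (fun t : ℕ => c / 2 * (t : ℝ)) atTop atTop := tendsto_natCast_atTop_atTop.const_mul_atTop (by positivity)
    filter_upwards [h1.eventually_ge_atTop 1] with t ht
    have := Nat.lt_floor_add_one (c * t)
    linarith
  have hfl2 : ∀ᶠ t : ℕ in atTop, 1 ≤ ⌊c * (t : ℝ)⌋₊ :=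
    (tendsto_nat_floor_atTop.comp (tendsto_natCast_atTop_atTop.const_mul_atTop hc)).eventually_ge_atTop 1
  have hc2 : 0 < c / 2 := by positivity
  filter_upwards [eventually_ge_atTop 1, rpow_small (11 / 20) (14 / 25) 4 (by norm_num),
    rpow_small (29 / 50) (3 / 5) (2 / (c / 2) ^ (3 / 5 : ℝ)) (by norm_num),
    rpow_small (11 / 20) (3 / 5) (4 / (c / 2) ^ (3 / 5 : ℝ)) (by norm_num),
    rpow_small (7 / 10) (3 / 4) (7 / (c / 2) ^ (3 / 4 : ℝ)) (by norm_num), hfl, hfl2] with t g1 g2 g3 g4 g5 g6 g7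
  have ht1 : (1 : ℝ) ≤ t := by exact_mod_cast g1
  have ht0 : (0 : ℝ) < t := by linarith
  have hp : (0 : ℝ) < (c / 2) ^ (3 / 5 : ℝ) := by positivity
  have hp2 : (0 : ℝ) < (c / 2) ^ (3 / 4 : ℝ) := by positivity
  refine ⟨g1, Real.one_le_rpow ht1 (by norm_num), g2, ?_, ?_, g6, g7⟩
  · have e1 : (c / 2) ^ (3 / 5 : ℝ) * (t : ℝ) ^ (3 / 5 : ℝ) ≤ (⌊c * t⌋₊ : ℝ) ^ (3 / 5 : ℝ) := by
      rw [← Real.mul_rpow hc2.le ht0.le]
      exact Real.rpow_le_rpow (by positivity) g6 (by norm_num)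
    have e2 : 2 * (t : ℝ) ^ (29 / 50 : ℝ) ≤ (c / 2) ^ (3 / 5 : ℝ) * (t : ℝ) ^ (3 / 5 : ℝ) := by
      rw [div_mul_eq_mul_div, div_le_iff₀ hp] at g3
      linarith
    have e3 : 4 * (t : ℝ) ^ (11 / 20 : ℝ) ≤ (c / 2) ^ (3 / 5 : ℝ) * (t : ℝ) ^ (3 / 5 : ℝ) := by
      rw [div_mul_eq_mul_div, div_le_iff₀ hp] at g4
      linarith
    linarith
  · apply Nat.le_floor
    push_cast
    have e1 : (c / 2) ^ (3 / 4 : ℝ) * (t : ℝ) ^ (3 / 4 : ℝ) ≤ (⌊c * t⌋₊ : ℝ) ^ (3 / 4 : ℝ) := by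
      rw [← Real.mul_rpow hc2.le ht0.le]
      exact Real.rpow_le_rpow (by positivity) g6 (by norm_num)
    have e2 : 7 * (t : ℝ) ^ (7 / 10 : ℝ) ≤ (c / 2) ^ (3 / 4 : ℝ) * (t : ℝ) ^ (3 / 4 : ℝ) := by
      rw [div_mul_eq_mul_div, div_le_iff₀ hp2] at g5
      linarith
    have e3 := zt_pow t 14
    norm_num at e3
    have e4 : (0 : ℝ) ≤ (t : ℝ) ^ (7 / 10 : ℝ) := by positivity
    linarith

theorem t_EEC2 : S_TR2 → S_RST → S_LIPD → S_SHF → S_LAWS → S_EEC2 := by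
  intro hT hR hL hS hW K ρ ε hρ hε
  have hth := th0_pos
  set c : ℝ := (ρ - 1) * th0 / 2 with hc
  have hc0 : 0 < c := by rw [hc]; nlinarith
  set M : ℝ := 4 / √(c / 2) with hM
  have hM0 : 0 < M := by rw [hM]; positivity
  obtain ⟨G, hG0, hG⟩ := hW K M (ε / 20) hM0 (by positivity)
  refine ⟨G, hG0, ?_⟩
  have hLt : Tendsto (fun t : ℕ => ⌊c * (t : ℝ)⌋₊) atTop atTop :=
    tendsto_nat_floor_atTop.comp (tendsto_natCast_atTop_atTop.const_mul_atTop hc0)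
  filter_upwards [hG, hT K ρ (ε / 20) hρ (by positivity), hLt.eventually (hR K (ε / 20) (by positivity)),
    hLt.eventually (hL K (ε / 10) (by positivity)), hLt.eventually (hS K (ε / 20) (by positivity)), con hc0, height hρ,
    pb_Bad K (ε / 80) (by positivity)] with t gW gT gR gL gS gC gH gB F hF κ X hκ hX hlX D hD hDD
  have ht1 : (1 : ℝ) ≤ t := by exact_mod_cast gC.one
  have ht0 : (0 : ℝ) < t := by linarith
  have hT11 := gC.h1
  -- the heights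
  have hhalf : (t : ℝ) - (t : ℝ) ^ (11 / 20 : ℝ) ≤ 2 * ((t / 2 : ℕ) : ℝ) := by
    have h1 : t ≤ 2 * (t / 2) + 1 := by omega
    have h2 : (t : ℝ) ≤ 2 * ((t / 2 : ℕ) : ℝ) + 1 := by exact_mod_cast h1
    linarith
  have hhalf2 : 2 * ((t / 2 : ℕ) : ℝ) ≤ t := by
    have h1 : 2 * (t / 2) ≤ t := by omega
    exact_mod_cast h1
  have hX0 := gH X hX hlX (t / 2) hhalf
  -- the first step
  have f1 := gT F hF κ hκ X hX hlX D (fun i => ⟨(Real.rpow_le_rpow_of_exponent_le ht1 (by norm_num)).trans (hD i).1, (hD i).2⟩)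
  -- the test function
  set φ : (Fin K → ℤ) → ℝ := fun A => ccK F κ (3 ^ (t / 2) * X / 2 ^ t) (fun i => (A i - (t / 2 : ℕ)).toNat) (fun _ => 0) / 2 with hφ
  have hφ1 : ∀ A, |φ A| ≤ 1 := by
    intro A
    rw [hφ]
    simp only
    rw [abs_div, abs_of_pos (by norm_num : (0 : ℝ) < 2), div_le_one (by norm_num)]
    exact ccK_bd hF _ _ _ _
  have hsq : √(c / 2) * √t ≤ √((⌊c * (t : ℝ)⌋₊ : ℕ) : ℝ) := by
    rw [← Real.sqrt_mul (by positivity)]
    exact Real.sqrt_le_sqrt gC.h5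
  have hsc : 0 < √(c / 2) := Real.sqrt_pos.2 (by positivity)
  have hst : 0 < √(t : ℝ) := Real.sqrt_pos.2 ht0
  have hφ2 : ∀ A A', |φ A - φ A'| ≤ M * (∑ i, |(A i : ℝ) - A' i|) / √t + ε / 20 := by
    intro A A'
    have e1 := gL F hF κ (3 ^ (t / 2) * X / 2 ^ t) hκ hX0 (fun i => (A i - (t / 2 : ℕ)).toNat) (fun i => (A' i - (t / 2 : ℕ)).toNat)
    have e2 : ∑ i, |(((A i - (t / 2 : ℕ)).toNat : ℕ) : ℝ) - ((A' i - (t / 2 : ℕ)).toNat : ℕ)| ≤ ∑ i, |(A i : ℝ) - A' i| := by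
      refine sum_le_sum fun i _ => ?_
      refine (toNat_lip _ _).trans (le_of_eq ?_)
      push_cast
      congr 1
      ring
    have e3 : 8 * (∑ i, |(((A i - (t / 2 : ℕ)).toNat : ℕ) : ℝ) - ((A' i - (t / 2 : ℕ)).toNat : ℕ)|) / √((⌊c * (t : ℝ)⌋₊ : ℕ) : ℝ) ≤
        8 * (∑ i, |(A i : ℝ) - A' i|) / (√(c / 2) * √t) := by
      have h0 : (0 : ℝ) ≤ ∑ i, |(A i : ℝ) - A' i| := sum_nonneg fun _ _ => abs_nonneg _
      gcongr
    rw [hφ]
    simp only
    rw [← sub_div, abs_div, abs_of_pos (by norm_num : (0 : ℝ) < 2), div_le_iff₀ (by norm_num : (0 : ℝ) < 2)]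
    refine e1.trans ?_
    have e4 : (M * (∑ i, |(A i : ℝ) - A' i|) / √t + ε / 20) * 2 = 8 * (∑ i, |(A i : ℝ) - A' i|) / (√(c / 2) * √t) + ε / 10 := by
      rw [hM]
      field_simp
      ring
    rw [e4]
    linarith
  have f3 := gW D (fun i => (hD i).2) hDD φ hφ1 hφ2
  -- the second step: labels and base
  have f2 : |ex t (fun y => cl F κ (3 ^ od t y * X / 2 ^ t) (rn stK t (fun i => ((D i : ℤ), 0)) y)) -
      ex t (fun y => 2 * φ (fun i => (D i : ℤ) + od t (3 ^ D i * y)))| ≤ (ε / 20 + ε / 20) + 4 * pb t (Bad t D) := by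
    apply ex_cmp (by positivity)
    · intro y hy
      unfold Bad at hy
      push Not at hy
      obtain ⟨hy1, hy2, hy3⟩ := hy
      obtain ⟨-, hy4⟩ := hy3
      obtain ⟨b1, b2⟩ := not_BB hy1
      have hs : ∀ i, (rn stK t (fun i => ((D i : ℤ), (0 : ℤ))) y i).1 = (D i : ℤ) + od t (3 ^ D i * y) - od t y := by
        intro i
        have h9 := (rel_rn (rel_nat (D i) 0 y) t).2
        simp only [add_zero] at h9
        rw [rn_stK_apply]
        exact h9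
      have hb : ∀ i, (t : ℝ) - (t : ℝ) ^ (11 / 20 : ℝ) ≤ 2 * (od t (3 ^ D i * y) : ℝ) ∧
          2 * (od t (3 ^ D i * y) : ℝ) ≤ t + (t : ℝ) ^ (11 / 20 : ℝ) := by
        intro i
        have := not_BB (hy2 i)
        simpa only [add_zero] using this
      have hoff : ∀ i, |(rn stK t (fun i => ((D i : ℤ), (0 : ℤ))) y i).2| ≤ 4 ^ ⌊((⌊c * (t : ℝ)⌋₊ : ℕ) : ℝ) ^ (3 / 4 : ℝ)⌋₊ := by
        intro i
        refine ((hy4 i).2).trans ?_
        exact pow_le_pow_right₀ (by norm_num) (by simpa using gC.h4)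
      -- all the exponents are nonnegative
      have hgeT : 4 * (t : ℝ) ^ (11 / 20 : ℝ) ≤ (t : ℝ) ^ (14 / 25 : ℝ) := gC.h2
      have hpos1 : ∀ i, (0 : ℤ) ≤ (D i : ℤ) + od t (3 ^ D i * y) - od t y := by
        intro i
        have h1 := (hb i).1
        have h2 := (hD i).1
        have h3 : (0 : ℝ) ≤ (D i : ℝ) + od t (3 ^ D i * y) - od t y := by linarith
        exact_mod_cast h3
      have hpos2 : ∀ i, (0 : ℤ) ≤ (D i : ℤ) + od t (3 ^ D i * y) - (t / 2 : ℕ) := by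
        intro i
        have h1 := (hb i).1
        have h2 := (hD i).1
        have h3 : (0 : ℝ) ≤ (D i : ℝ) + od t (3 ^ D i * y) - (t / 2 : ℕ) := by linarith
        exact_mod_cast h3
      have hL3 := gC.h3
      -- RST
      have hX1 := gH X hX hlX (od t y) b1
      have r1 := gR F hF κ (3 ^ od t y * X / 2 ^ t) hκ hX1 (fun i => (rn stK t (fun i => ((D i : ℤ), (0 : ℤ))) y i).1.toNat)
        (fun i => (rn stK t (fun i => ((D i : ℤ), (0 : ℤ))) y i).2) hoff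
      -- SHF
      have r2 : |ccK F κ (3 ^ od t y * X / 2 ^ t) (fun i => (rn stK t (fun i => ((D i : ℤ), (0 : ℤ))) y i).1.toNat) (fun _ => 0) -
          ccK F κ (3 ^ (t / 2) * X / 2 ^ t) (fun i => ((D i : ℤ) + od t (3 ^ D i * y) - (t / 2 : ℕ)).toNat) (fun _ => 0)| ≤ ε / 20 := by
        rcases le_total (t / 2) (od t y) with hle | hle
        · -- the base is above `t / 2`
          have e := gS F hF κ (3 ^ (t / 2) * X / 2 ^ t) hκ hX0 (od t y - t / 2)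
            (fun i => (rn stK t (fun i => ((D i : ℤ), (0 : ℤ))) y i).1.toNat) (by
              rw [Nat.cast_sub hle]
              have h1 := b2
              have h0 : (0 : ℝ) ≤ (t : ℝ) ^ (29 / 50 : ℝ) := by positivity
              linarith) (by
              intro i
              have h1 := (hb i).2
              have h2 := (hD i).2
              have h3 : (((rn stK t (fun i => ((D i : ℤ), (0 : ℤ))) y i).1.toNat : ℕ) : ℝ) = (D i : ℝ) + od t (3 ^ D i * y) - od t y := by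
                rw [hs i]
                have := Int.toNat_of_nonneg (hpos1 i)
                exact_mod_cast this
              rw [h3]
              linarith)
          have e2 : (3 : ℝ) ^ (od t y - t / 2) * (3 ^ (t / 2) * X / 2 ^ t) = 3 ^ od t y * X / 2 ^ t := by
            rw [← mul_div_assoc, ← mul_assoc, ← pow_add, Nat.sub_add_cancel hle]
          rw [e2] at e
          have e3 : (fun i => (rn stK t (fun i => ((D i : ℤ), (0 : ℤ))) y i).1.toNat + (od t y - t / 2)) =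
              (fun i => ((D i : ℤ) + od t (3 ^ D i * y) - (t / 2 : ℕ)).toNat) := by
            funext i
            have h1 := hpos1 i
            have h2 := hpos2 i
            rw [hs i]
            omega
          rw [e3] at e
          exact e
        · -- the base is below `t / 2`
          have e := gS F hF κ (3 ^ od t y * X / 2 ^ t) hκ hX1 (t / 2 - od t y)
            (fun i => ((D i : ℤ) + od t (3 ^ D i * y) - (t / 2 : ℕ)).toNat) (by
              rw [Nat.cast_sub hle]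
              have h0 : (0 : ℝ) ≤ (t : ℝ) ^ (29 / 50 : ℝ) := by positivity
              linarith) (by
              intro i
              have h1 := (hb i).2
              have h2 := (hD i).2
              have h3 : ((((D i : ℤ) + od t (3 ^ D i * y) - (t / 2 : ℕ)).toNat : ℕ) : ℝ) = (D i : ℝ) + od t (3 ^ D i * y) - (t / 2 : ℕ) := by
                have := Int.toNat_of_nonneg (hpos2 i)
                exact_mod_cast this
              rw [h3]
              linarith)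
          have e2 : (3 : ℝ) ^ (t / 2 - od t y) * (3 ^ od t y * X / 2 ^ t) = 3 ^ (t / 2) * X / 2 ^ t := by
            rw [← mul_div_assoc, ← mul_assoc, ← pow_add, Nat.sub_add_cancel hle]
          rw [e2] at e
          have e3 : (fun i => ((D i : ℤ) + od t (3 ^ D i * y) - (t / 2 : ℕ)).toNat + (t / 2 - od t y)) =
              (fun i => (rn stK t (fun i => ((D i : ℤ), (0 : ℤ))) y i).1.toNat) := by
            funext i
            have h1 := hpos1 i
            have h2 := hpos2 i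
            rw [hs i]
            omega
          rw [e3, abs_sub_comm] at e
          exact e
      have e5 : 2 * φ (fun i => (D i : ℤ) + od t (3 ^ D i * y)) =
          ccK F κ (3 ^ (t / 2) * X / 2 ^ t) (fun i => ((D i : ℤ) + od t (3 ^ D i * y) - (t / 2 : ℕ)).toNat) (fun _ => 0) := by
        rw [hφ]
        simp only
        ring
      rw [e5]
      unfold cl
      exact (abs_sub_le _ _ _).trans (add_le_add r1 r2)
    · intro y
      have e1 : |cl F κ (3 ^ od t y * X / 2 ^ t) (rn stK t (fun i => ((D i : ℤ), 0)) y)| ≤ 2 := by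
        unfold cl
        exact ccK_bd hF _ _ _ _
      have e2 := hφ1 (fun i => (D i : ℤ) + od t (3 ^ D i * y))
      rw [abs_le] at e1 e2 ⊢
      constructor <;> linarith
  have f4 : EE2 F κ X D t = 2 * exK t K (fun y => φ (fun i => (D i : ℤ) + od t (y i))) := by
    have : ∀ (K' : ℕ) (g : (Fin K' → ℤ) → ℝ), exK t K' (fun v => 2 * g v) = 2 * exK t K' g := by
      intro K'
      induction K' with
      | zero => intro g; rfl
      | succ n ih =>
        intro g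
        unfold exK
        rw [← ex_mul]
        exact ex_congr (fun y => ih _)
    rw [← this]
    unfold EE2
    congr 1
    funext y
    rw [hφ]
    simp only
    ring
  have f5 : ex t (fun y => 2 * φ (fun i => (D i : ℤ) + od t (3 ^ D i * y))) = 2 * ex t (fun y => φ (fun i => (D i : ℤ) + od t (3 ^ D i * y))) :=
    ex_mul _ _ _
  have gB' := gB D (fun i => (hD i).2)
  rw [f4]
  rw [f5] at f2
  rw [abs_le] at f1 f2 f3 ⊢
  constructor <;> linarith

end Pool.Agent.J4H84.KP
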